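import Pool.Agent.X164.TC.Asm

/-!
# Three sizes suffice with ratio tending to 1 (a full positive answer to Q1)

Divide the unit cube into `K³` equal cells and divide each cell into `k³`, `(k+1)³` or `(k+2)³` equal cubes. With `y` cells of
the second kind and `z` cells of the third kind the number of cubes is `K³k³ + y((k+1)³ - k³) + z((k+2)³ - k³)`. The numbers
`(k+1)³ - k³ = 3k² + 3k + 1` and `(k+2)³ - k³ = 6k² + 12k + 8` are coprime for every `k`, so for every fixed `k ≥ 1` all large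
`n` are of this form with `y + z ≤ K³`. The three side lengths are `1/(Kk)`, `1/(K(k+1))` and `1/(K(k+2))`, and the ratio is
at most `1 + 2/k`.
-/

set_option autoImplicit false

namespace Pool.Agent.Results.MP_695dce_co.ThreeSizes

open Filter Topology

/-- The closed solid cube with lowest corner `t.1` and side length `t.2` (edges parallel to the axes). -/
def cube (t : (Fin 3 → ℝ) × ℝ) : Set (Fin 3 → ℝ) := {x | ∀ i, t.1 i ≤ x i ∧ x i ≤ t.1 i + t.2}

/-- `P` is a tiling of the unit cube `Q = [0,1]³` with `|P|` cubes: the cubes have positive side lengths, their union is `Q`,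
and their interiors are pairwise disjoint. -/
structure IsTiling (P : Finset ((Fin 3 → ℝ) × ℝ)) : Prop where
  pos : ∀ t ∈ P, 0 < t.2
  cover : (⋃ t ∈ P, cube t) = Set.Icc (0 : Fin 3 → ℝ) 1
  disj : ∀ t ∈ P, ∀ u ∈ P, t ≠ u → Disjoint (interior (cube t)) (interior (cube u))

/-- The set of side lengths that occur. -/
noncomputable def sides (P : Finset ((Fin 3 → ℝ) × ℝ)) : Finset ℝ := P.image Prod.snd

/-- The largest quotient of two side lengths, that is, the ratio of the largest to the smallest side length. -/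
noncomputable def ratio (P : Finset ((Fin 3 → ℝ) × ℝ)) : ℝ := sSup {r | ∃ t ∈ P, ∃ u ∈ P, r = t.2 / u.2}

/-- For every `k ≥ 1` and every large `n` there is a tiling with `n` cubes, at most three sizes and ratio at most
`1 + 2/k`. -/
theorem exists_good (k : ℕ) (hk : 1 ≤ k) : ∃ N : ℕ, ∀ n, N ≤ n → ∃ P : Finset ((Fin 3 → ℝ) × ℝ),
    IsTiling P ∧ P.card = n ∧ (sides P).card ≤ 3 ∧ 1 ≤ ratio P ∧ ratio P ≤ 1 + 2 / k := by
  classical
  obtain ⟨N, hN⟩ := Pool.Agent.X164.TC.exists_rep k hk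
  refine ⟨max N 1, fun n hn => ?_⟩
  obtain ⟨K, y, z, hK, hyz, hn'⟩ := hN n (le_trans (le_max_left _ _) hn)
  obtain ⟨P, hP, hPc, hPs⟩ := Pool.Agent.X164.TC.tiling_of_rep k K y z hk hK hyz
  have hcard : P.card = n := by rw [hPc, hn']
  have hne : P.Nonempty := by
    rw [← Finset.card_pos, hcard]
    exact lt_of_lt_of_le (by norm_num) (le_trans (le_max_right N 1) hn)
  obtain ⟨hcov, hdisj⟩ := Pool.Agent.X164.TC.closed_of_ht hP
  have hkR : (1 : ℝ) ≤ k := by exact_mod_cast hk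
  have hKR : (1 : ℝ) ≤ K := by exact_mod_cast hK
  have hlow : ∀ t ∈ P, 1 / ((K : ℝ) * (k + 2)) ≤ t.2 := by
    intro t ht
    rcases hPs t ht with h | h | h <;> rw [h] <;> apply one_div_le_one_div_of_le <;> nlinarith
  have hupp : ∀ t ∈ P, t.2 ≤ 1 / ((K : ℝ) * k) := by
    intro t ht
    rcases hPs t ht with h | h | h <;> rw [h] <;> apply one_div_le_one_div_of_le <;> nlinarith
  have hquot : ∀ r ∈ {r : ℝ | ∃ t ∈ P, ∃ u ∈ P, r = t.2 / u.2}, r ≤ 1 + 2 / (k : ℝ) := by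
    rintro r ⟨t, ht, u, hu, rfl⟩
    have h1 := hupp t ht
    have h2 := hlow u hu
    have h3 : 0 < u.2 := hP.pos u hu
    rw [div_le_iff₀ h3]
    have h4 : 1 / ((K : ℝ) * k) = (1 + 2 / (k : ℝ)) * (1 / ((K : ℝ) * (k + 2))) := by
      field_simp
    calc t.2 ≤ 1 / ((K : ℝ) * k) := h1
      _ = (1 + 2 / (k : ℝ)) * (1 / ((K : ℝ) * (k + 2))) := h4
      _ ≤ (1 + 2 / (k : ℝ)) * u.2 := by
          apply mul_le_mul_of_nonneg_left h2
          positivity
  obtain ⟨t₀, ht₀⟩ := hne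
  have hone : (1 : ℝ) ∈ {r : ℝ | ∃ t ∈ P, ∃ u ∈ P, r = t.2 / u.2} :=
    ⟨t₀, ht₀, t₀, ht₀, (div_self (hP.pos t₀ ht₀).ne').symm⟩
  refine ⟨P, ⟨hP.pos, hcov, hdisj⟩, hcard, ?_, ?_, ?_⟩
  · have hsub : sides P ⊆ {1 / ((K : ℝ) * k), 1 / ((K : ℝ) * (k + 1)), 1 / ((K : ℝ) * (k + 2))} := by
      intro s hs
      obtain ⟨t, ht, rfl⟩ := Finset.mem_image.1 hs
      simpa using hPs t ht
    exact le_trans (Finset.card_le_card hsub) Finset.card_le_three
  · exact le_csSup ⟨_, hquot⟩ hone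
  · exact csSup_le ⟨1, hone⟩ hquot

/-- **Three sizes suffice with ratio tending to 1**: there are `n₀` and tilings `T n` of the unit cube such that for every
`n ≥ n₀` the tiling `T n` has exactly `n` cubes with at most three distinct side lengths, and the ratio of the largest to the
smallest side length of `T n` tends to `1` as `n → ∞`. -/
theorem result : ∃ (n₀ : ℕ) (T : ℕ → Finset ((Fin 3 → ℝ) × ℝ)),
    (∀ n, n₀ ≤ n → IsTiling (T n) ∧ (T n).card = n ∧ (sides (T n)).card ≤ 3) ∧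
    Tendsto (fun n => ratio (T n)) atTop (𝓝 1) := by
  classical
  have H : ∀ k : ℕ, ∃ N : ℕ, ∀ n, N ≤ n → ∃ P : Finset ((Fin 3 → ℝ) × ℝ),
      IsTiling P ∧ P.card = n ∧ (sides P).card ≤ 3 ∧ 1 ≤ ratio P ∧ ratio P ≤ 1 + 2 / ((k : ℝ) + 1) := by
    intro k
    obtain ⟨N, hN⟩ := exists_good (k + 1) (by omega)
    exact ⟨N, fun n hn => by simpa using hN n hn⟩
  choose N hN using H
  set κ : ℕ → ℕ := fun n => Nat.findGreatest (fun k => N k ≤ n) n with hκ
  have hex : ∀ n, N 0 ≤ n → N (κ n) ≤ n := fun n hn =>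
    Nat.findGreatest_spec (P := fun k => N k ≤ n) (Nat.zero_le n) hn
  have hT : ∀ n, ∃ P : Finset ((Fin 3 → ℝ) × ℝ), N 0 ≤ n →
      IsTiling P ∧ P.card = n ∧ (sides P).card ≤ 3 ∧ 1 ≤ ratio P ∧ ratio P ≤ 1 + 2 / ((κ n : ℝ) + 1) := by
    intro n
    by_cases h : N 0 ≤ n
    · obtain ⟨P, hP⟩ := hN (κ n) n (hex n h)
      exact ⟨P, fun _ => hP⟩
    · exact ⟨∅, fun h' => absurd h' h⟩
  choose T hT using hT
  refine ⟨N 0, T, fun n hn => ⟨(hT n hn).1, (hT n hn).2.1, (hT n hn).2.2.1⟩, ?_⟩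
  rw [Metric.tendsto_atTop]
  intro ε hε
  obtain ⟨k, hk⟩ := exists_nat_gt (2 / ε)
  refine ⟨max (N 0) (max (N k) k), fun n hn => ?_⟩
  have h0 : N 0 ≤ n := le_trans (le_max_left _ _) hn
  have h1 : N k ≤ n := le_trans (le_trans (le_max_left _ _) (le_max_right _ _)) hn
  have h2 : k ≤ n := le_trans (le_trans (le_max_right _ _) (le_max_right _ _)) hn
  have h3 : k ≤ κ n := Nat.le_findGreatest h2 h1
  obtain ⟨-, -, -, h4, h5⟩ := hT n h0
  have h6 : (k : ℝ) ≤ κ n := by exact_mod_cast h3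
  have h7 : 2 / ((κ n : ℝ) + 1) < ε := by
    rw [div_lt_iff₀ (by positivity)]
    rw [div_lt_iff₀ hε] at hk
    nlinarith
  rw [Real.dist_eq, abs_lt]
  constructor <;> linarith

end Pool.Agent.Results.MP_695dce_co.ThreeSizes
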